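import Pool.Agent.N964.GX.Stm

/-!
# GX/I: the converse
-/

set_option autoImplicit false

namespace Pool.Agent.N702.GX

open Complex MeasureTheory Filter Topology Asymptotics Set
open Pool.Agent.N964.GX

/-- the partial sums cut off below 1 -/
noncomputable def cut (b : ℕ → ℂ) (x : ℝ) : ℂ :=
  if 1 < x then ∑ n ∈ Finset.Icc 1 ⌊x⌋₊, b n else 0

/-- the Mellin transform of the partial sums -/
noncomputable def HH (b : ℕ → ℂ) (s : ℂ) : ℂ := s * mellin (cut b) (-s)

theorem mellin_cut (b : ℕ → ℂ) (s : ℂ) :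
    mellin (cut b) (-s) = ∫ t in Ioi (1 : ℝ), (∑ n ∈ Finset.Icc 1 ⌊t⌋₊, b n) * (t : ℂ) ^ (-(s + 1)) := by
  unfold mellin
  have h1 : ∀ t : ℝ, (t : ℂ) ^ (-s - 1) • cut b t =
      (Ioi (1 : ℝ)).indicator (fun t : ℝ => (∑ n ∈ Finset.Icc 1 ⌊t⌋₊, b n) * (t : ℂ) ^ (-(s + 1))) t := by
    intro t
    by_cases ht : 1 < t
    · rw [indicator_of_mem (mem_Ioi.2 ht)]
      unfold cut
      rw [if_pos ht, smul_eq_mul, mul_comm]
      congr 2
      ring
    · rw [indicator_of_notMem (by simpa using ht)]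
      unfold cut
      rw [if_neg ht, smul_zero]
  simp_rw [h1]
  rw [setIntegral_indicator measurableSet_Ioi]
  congr 2
  ext t
  simp only [mem_inter_iff, mem_Ioi]
  constructor
  · exact fun h => h.2
  · exact fun h => ⟨by linarith, h⟩

theorem meas_cut (b : ℕ → ℂ) : Measurable (cut b) := by
  unfold cut
  refine Measurable.ite measurableSet_Ioi ?_ measurable_const
  exact (measurable_from_nat (f := fun m => ∑ n ∈ Finset.Icc 1 m, b n)).comp Nat.measurable_floor

theorem loc_cut (b : ℕ → ℂ) : LocallyIntegrableOn (cut b) (Ioi 0) := by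
  apply LocallyIntegrable.locallyIntegrableOn
  rw [locallyIntegrable_iff]
  intro K hK
  obtain ⟨M, hM⟩ := hK.isBounded.subset_closedBall 0
  have hb : ∀ x ∈ K, ‖cut b x‖ ≤ ∑ n ∈ Finset.Icc 1 ⌊M⌋₊, ‖b n‖ := by
    intro x hx
    have hx2 : |x| ≤ M := by
      have := hM hx
      simpa [Real.norm_eq_abs] using this
    unfold cut
    split_ifs with h
    · refine (norm_sum_le _ _).trans ?_
      refine Finset.sum_le_sum_of_subset_of_nonneg ?_ fun _ _ _ => norm_nonneg _
      exact Finset.Icc_subset_Icc_right (Nat.floor_le_floor ((le_abs_self x).trans hx2))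
    · rw [norm_zero]
      exact Finset.sum_nonneg fun _ _ => norm_nonneg _
  refine Measure.integrableOn_of_bounded (M := ∑ n ∈ Finset.Icc 1 ⌊M⌋₊, ‖b n‖) hK.measure_lt_top.ne
    (meas_cut b).aestronglyMeasurable ?_
  exact (ae_restrict_iff' hK.measurableSet).2 (Eventually.of_forall hb)

theorem diff_HH (b : ℕ → ℂ) (r : ℝ) (hO : (fun x : ℝ => ∑ n ∈ Finset.Icc 1 ⌊x⌋₊, b n) =O[atTop] fun x : ℝ => x ^ r)
    (s : ℂ) (hs : r < s.re) : DifferentiableAt ℂ (HH b) s := by
  unfold HH
  refine differentiableAt_id.mul ?_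
  have h := mellin_differentiableAt_of_isBigO_rpow (a := -r) (b := -s.re - 1) (f := cut b) (s := -s)
    (loc_cut b) ?_ (by simpa using hs) ?_ (by simp)
  · exact h.comp s differentiableAt_id.neg
  · rw [neg_neg]
    refine IsBigO.congr' hO ?_ EventuallyEq.rfl
    filter_upwards [eventually_gt_atTop 1] with x hx
    unfold cut
    rw [if_pos hx]
  · refine IsBigO.congr' (isBigO_zero _ _) ?_ EventuallyEq.rfl
    have : Iio (1 : ℝ) ∈ 𝓝[>] (0 : ℝ) := mem_nhdsWithin_of_mem_nhds (Iio_mem_nhds one_pos)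
    filter_upwards [this] with x hx
    unfold cut
    rw [if_neg (not_lt.2 (le_of_lt hx))]

theorem eventually_Q (k : ℕ) (hk1 : 1 ≤ k) (C e : ℝ) (he : 0 < e) :
    ∀ᶠ x : ℝ in atTop, C * Qk k x ≤ e * Real.log x := by
  have hk : (0 : ℝ) < 1 / ((k : ℝ) + 1) := by positivity
  have h1 : Tendsto (fun L : ℝ => |C| * L ^ (-(1 / ((k : ℝ) + 1)))) atTop (𝓝 0) := by
    have := (tendsto_rpow_neg_atTop hk).const_mul |C|
    rwa [mul_zero] at this
  have h2 : ∀ᶠ L : ℝ in atTop, C * (L ^ ((k : ℝ) / (k + 1)) / Real.log L) ≤ e * L := by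
    filter_upwards [h1.eventually (eventually_lt_nhds he), eventually_ge_atTop (Real.exp 1)] with L hL hL1
    have hL0 : 0 < L := (Real.exp_pos 1).trans_le hL1
    have hlog : 1 ≤ Real.log L := by
      rw [Real.le_log_iff_exp_le hL0]
      exact hL1
    have h3 : L ^ ((k : ℝ) / (k + 1)) = L * L ^ (-(1 / ((k : ℝ) + 1))) := by
      rw [← Real.rpow_one_add' hL0.le]
      · congr 1
        field_simp
        ring
      · have : (1 : ℝ) + -(1 / ((k : ℝ) + 1)) = k / (k + 1) := by
          field_simp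
          ring
        rw [this]
        have hk0 : (0 : ℝ) < k := by exact_mod_cast hk1
        positivity
    have h4 : 0 ≤ L ^ ((k : ℝ) / (k + 1)) := Real.rpow_nonneg hL0.le _
    calc C * (L ^ ((k : ℝ) / (k + 1)) / Real.log L) ≤ |C| * (L ^ ((k : ℝ) / (k + 1)) / Real.log L) :=
          mul_le_mul_of_nonneg_right (le_abs_self C) (div_nonneg h4 (by linarith))
      _ ≤ |C| * L ^ ((k : ℝ) / (k + 1)) := by
          refine mul_le_mul_of_nonneg_left ?_ (abs_nonneg C)
          exact div_le_self h4 hlog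
      _ = L * (|C| * L ^ (-(1 / ((k : ℝ) + 1)))) := by rw [h3]; ring
      _ ≤ L * e := mul_le_mul_of_nonneg_left hL.le hL0.le
      _ = e * L := mul_comm _ _
  have h3 := Real.tendsto_log_atTop.eventually h2
  filter_upwards [h3] with x hx
  exact hx

theorem bigO (k : ℕ) (hk1 : 1 ≤ k) (b : ℕ → ℂ) (C e : ℝ) (he : 0 < e)
    (h : ∀ x : ℝ, 3 ≤ x → ‖∑ n ∈ Finset.Icc 1 ⌊x⌋₊, b n‖ ≤ Real.sqrt x * Real.exp (C * Qk k x)) :
    (fun x : ℝ => ∑ n ∈ Finset.Icc 1 ⌊x⌋₊, b n) =O[atTop] fun x : ℝ => x ^ (1 / 2 + e) := by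
  refine IsBigO.of_bound 1 ?_
  filter_upwards [eventually_Q k hk1 C e he, eventually_ge_atTop 3] with x hx h3
  have hx0 : 0 < x := by linarith
  rw [one_mul, Real.norm_of_nonneg (Real.rpow_nonneg hx0.le _), Real.rpow_add hx0, ← Real.sqrt_eq_rpow]
  refine (h x h3).trans ?_
  refine mul_le_mul_of_nonneg_left ?_ (Real.sqrt_nonneg x)
  rw [Real.rpow_def_of_pos hx0]
  exact Real.exp_le_exp.2 (by linarith)

theorem cv : S_cv := by
  rintro k r A lc F F' E a a' b hL ⟨C, hC⟩ s hs
  have hk := hL.hk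
  by_cases hs1 : s = 1 ∧ r ≠ 0
  · rw [hs1.1]
    exact hL.h1.resolve_left hs1.2
  set e : ℝ := (s.re - 1 / 2) / 2 with he
  have he0 : 0 < e := by rw [he]; linarith
  have hO := bigO k hk b C e he0 hC
  set U : Set ℂ := {z : ℂ | 1 / 2 + e < z.re} with hU
  have hUo : IsOpen U := isOpen_lt continuous_const continuous_re
  have hUc : IsPreconnected U := (convex_halfSpace_re_gt _).isPreconnected
  have hsU : s ∈ U := by
    rw [hU, mem_ofPred_eq, he]
    linarith
  have hH : DifferentiableOn ℂ (HH b) U := fun z hz => (diff_HH b _ hO z hz).differentiableWithinAt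
  have hid : EqOn (fun z => E z * HH b z) (fun z => (z - 1) ^ r) U := by
    refine AnalyticOnNhd.eqOn_of_preconnected_of_eventuallyEq
      (DifferentiableOn.analyticOnNhd (hL.ent.differentiableOn.mul hH) hUo)
      (DifferentiableOn.analyticOnNhd (by fun_prop) hUo) hUc
      (z₀ := ((2 + e : ℝ) : ℂ)) ?_ ?_
    · rw [hU, mem_ofPred_eq, ofReal_re]
      linarith
    · have hopen : {z : ℂ | 1 + e < z.re} ∈ 𝓝 (((2 + e : ℝ) : ℂ)) := by
        refine (isOpen_lt continuous_const continuous_re).mem_nhds ?_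
        rw [mem_ofPred_eq, ofReal_re]
        linarith
      filter_upwards [hopen] with z hz
      have hz1 : 1 < z.re := by
        have : 1 + e < z.re := hz
        linarith
      have hzne : z ≠ 1 := by
        rintro rfl
        simp at hz1
      have hser : LSeries b z = HH b z := by
        unfold HH
        rw [mellin_cut]
        refine LSeries_eq_mul_integral b (r := 1 / 2 + e) (by linarith) ?_ (hL.sb z hz1) ?_
        · have : 1 + e < z.re := hz
          linarith
        · have h2 := hO.comp_tendsto tendsto_natCast_atTop_atTop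
          refine IsBigO.congr' h2 ?_ ?_
          · refine Eventually.of_forall fun n => ?_
            simp
          · refine Eventually.of_forall fun n => ?_
            simp
      rw [← hser, hL.hE z hzne, mul_assoc, hL.hb z hz1, mul_one]
  have h1 := hid hsU
  simp only at h1
  intro hE0
  rw [hE0, zero_mul] at h1
  have h2 : s - 1 ≠ 0 ∨ r = 0 := by
    by_cases hr : r = 0
    · exact Or.inr hr
    · left
      intro h
      exact hs1 ⟨sub_eq_zero.1 h, hr⟩
  rcases h2 with h2 | h2
  · exact pow_ne_zero r h2 h1.symm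
  · rw [h2, pow_zero] at h1
    exact zero_ne_one h1

end Pool.Agent.N702.GX
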